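import Pool.Agent.Lib_helper69.HM.A5

open MeasureTheory Finset
open scoped ENNReal

namespace Pool.Agent.HM

/-- a factor which does not depend on the integrated coordinates can be pulled out -/
private theorem R1_const_mul {G : Type} [DecidableEq G] {F c : (G → ℝ) → ℝ≥0∞}
    (hF : Measurable F) (W : Finset G) (ξ : G → ℝ)
    (hc : ∀ f g : G → ℝ, (∀ x ∉ W, f x = g x) → c f = c g) :
    lm W (fun f => c f * F f) ξ = c ξ * lm W F ξ := by
  unfold lm lmarginal
  rw [← lintegral_const_mul]
  · refine lintegral_congr fun y => ?_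
    have h1 : c (Function.updateFinset ξ W y) = c ξ := by
      refine hc _ _ fun x hx => ?_
      simp [Function.updateFinset, hx]
    show c (Function.updateFinset ξ W y) * F (Function.updateFinset ξ W y) = _
    rw [h1]
  · exact hF.comp measurable_updateFinset

/-- Abstract reflection positivity: `θ` fixes the points of `P` and exchanges `A` and `B`; the
weight is `w₀ * u * (u ∘ θ)`, `w₀` depends on the variables in `P`, and `u`, `F` and `H` on those in
`A ∪ P`. -/
theorem rp_abstract {G : Type} [Fintype G] [DecidableEq G] (θ : G ≃ G) (A B P : Finset G)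
    (hinv : ∀ x, θ (θ x) = x) (hP : ∀ x ∈ P, θ x = x) (hAB : B = A.image θ)
    (d1 : Disjoint A B) (d2 : Disjoint A P) (d3 : Disjoint B P) (hun : A ∪ B ∪ P = univ)
    {w₀ u F H : (G → ℝ) → ℝ≥0∞} (mw : Measurable w₀) (mu : Measurable u) (mF : Measurable F)
    (mH : Measurable H)
    (dw : ∀ f g : G → ℝ, (∀ x ∈ P, f x = g x) → w₀ f = w₀ g)
    (du : ∀ f g : G → ℝ, (∀ x ∈ A ∪ P, f x = g x) → u f = u g)
    (dF : ∀ f g : G → ℝ, (∀ x ∈ A ∪ P, f x = g x) → F f = F g)
    (dH : ∀ f g : G → ℝ, (∀ x ∈ A ∪ P, f x = g x) → H f = H g) :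
    lm univ (fun f => F f * H (f ∘ θ) * (w₀ f * (u f * u (f ∘ θ)))) 0 =
      lm P (fun f => w₀ f * (lm A (fun g => F g * u g) f * lm A (fun g => H g * u g) f)) 0 := by
  have mθ : Measurable fun f : G → ℝ => f ∘ θ :=
    measurable_pi_lambda _ fun i => measurable_pi_apply (θ i)
  have mT : Measurable fun f : G → ℝ => F f * H (f ∘ θ) * (w₀ f * (u f * u (f ∘ θ))) :=
    (mF.mul (mH.comp mθ)).mul (mw.mul (mu.mul (mu.comp mθ)))
  have mG : Measurable fun f : G → ℝ => H f * u f := mH.mul mu
  have mHu : Measurable fun f : G → ℝ => F f * u f := mF.mul mu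
  have hu : P ∪ (A ∪ B) = univ := by rw [← hun, union_comm]
  have hd1 : Disjoint P (A ∪ B) := Finset.disjoint_union_right.2 ⟨d2.symm, d3.symm⟩
  have e1 : lm univ (fun f => F f * H (f ∘ θ) * (w₀ f * (u f * u (f ∘ θ)))) =
      lm P (lm A (lm B (fun f => F f * H (f ∘ θ) * (w₀ f * (u f * u (f ∘ θ)))))) := by
    unfold lm
    rw [← hu, lmarginal_union _ _ mT hd1, lmarginal_union _ _ mT d1]
  rw [e1]
  have e2 : lm B (fun f => F f * H (f ∘ θ) * (w₀ f * (u f * u (f ∘ θ)))) =
      fun f => (F f * (w₀ f * u f)) * lm A (fun g => H g * u g) (f ∘ θ) := by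
    funext f
    have h1 : (fun f : G → ℝ => F f * H (f ∘ θ) * (w₀ f * (u f * u (f ∘ θ)))) =
        fun f => (F f * (w₀ f * u f)) * ((fun g => H g * u g) (f ∘ θ)) := by
      funext f
      ring
    rw [h1, R1_const_mul (c := fun f => F f * (w₀ f * u f))
      (F := fun f => (fun g => H g * u g) (f ∘ θ)) (mG.comp mθ) _ _ ?_]
    · congr 1
      rw [hAB]
      refine lm_transport (⇑θ) A (A ∪ P) subset_union_left ?_ mG ?_ f
      · intro a _ b _ hab
        exact θ.injective hab
      · intro f g h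
        rw [dH f g h, du f g h]
    · intro f g h
      have h2 : ∀ x ∈ A ∪ P, f x = g x := by
        intro x hx
        refine h x ?_
        rcases mem_union.1 hx with hx | hx
        · exact Finset.disjoint_left.1 d1 hx
        · exact Finset.disjoint_right.1 d3 hx
      show F f * (w₀ f * u f) = F g * (w₀ g * u g)
      rw [dF f g h2, du f g h2, dw f g fun x hx => h2 x (mem_union_right _ hx)]
  rw [e2]
  congr 1
  funext f
  have h3 : ∀ f g : G → ℝ, (∀ x ∉ A, f x = g x) →
      lm A (fun g => H g * u g) f = lm A (fun g => H g * u g) g := by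
    intro f g h
    refine lm_congr_on (A := A ∪ P) ?_ A ?_
    · intro f g h
      rw [dH f g h, du f g h]
    · intro x _ hx'
      exact h x hx'
  have h4 : ∀ f : G → ℝ, lm A (fun g => H g * u g) (f ∘ θ) = lm A (fun g => H g * u g) f := by
    intro f
    refine lm_congr_on (A := A ∪ P) ?_ A ?_
    · intro f g h
      rw [dH f g h, du f g h]
    · intro x hx hx'
      rcases mem_union.1 hx with h | h
      · exact absurd h hx'
      · simp [hP x h]
  have h5 : (fun f : G → ℝ => (F f * (w₀ f * u f)) * lm A (fun g => H g * u g) (f ∘ θ)) =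
      fun f => (w₀ f * lm A (fun g => H g * u g) f) * (F f * u f) := by
    funext f
    rw [h4]
    ring
  rw [h5, R1_const_mul (c := fun f => w₀ f * lm A (fun g => H g * u g) f) mHu]
  · ring
  · intro f g h
    rw [h3 f g h, dw f g fun x hx => h x (Finset.disjoint_right.1 d2 hx)]

/-- the polarised inequality -/
theorem rp_abstract_le {G : Type} [Fintype G] [DecidableEq G] (θ : G ≃ G) (A B P : Finset G)
    (hinv : ∀ x, θ (θ x) = x) (hP : ∀ x ∈ P, θ x = x) (hAB : B = A.image θ)
    (d1 : Disjoint A B) (d2 : Disjoint A P) (d3 : Disjoint B P) (hun : A ∪ B ∪ P = univ)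
    {w₀ u F H : (G → ℝ) → ℝ≥0∞} (mw : Measurable w₀) (mu : Measurable u) (mF : Measurable F)
    (mH : Measurable H)
    (dw : ∀ f g : G → ℝ, (∀ x ∈ P, f x = g x) → w₀ f = w₀ g)
    (du : ∀ f g : G → ℝ, (∀ x ∈ A ∪ P, f x = g x) → u f = u g)
    (dF : ∀ f g : G → ℝ, (∀ x ∈ A ∪ P, f x = g x) → F f = F g)
    (dH : ∀ f g : G → ℝ, (∀ x ∈ A ∪ P, f x = g x) → H f = H g) :
    lm univ (fun f => F f * H (f ∘ θ) * (w₀ f * (u f * u (f ∘ θ)))) 0 +
      lm univ (fun f => H f * F (f ∘ θ) * (w₀ f * (u f * u (f ∘ θ)))) 0 ≤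
      lm univ (fun f => F f * F (f ∘ θ) * (w₀ f * (u f * u (f ∘ θ)))) 0 +
      lm univ (fun f => H f * H (f ∘ θ) * (w₀ f * (u f * u (f ∘ θ)))) 0 := by
  rw [rp_abstract θ A B P hinv hP hAB d1 d2 d3 hun mw mu mF mH dw du dF dH,
    rp_abstract θ A B P hinv hP hAB d1 d2 d3 hun mw mu mH mF dw du dH dF,
    rp_abstract θ A B P hinv hP hAB d1 d2 d3 hun mw mu mF mF dw du dF dF,
    rp_abstract θ A B P hinv hP hAB d1 d2 d3 hun mw mu mH mH dw du dH dH]
  have mA : Measurable (lm A (fun g : G → ℝ => F g * u g)) := (mF.mul mu).lmarginal _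
  have mB : Measurable (lm A (fun g : G → ℝ => H g * u g)) := (mH.mul mu).lmarginal _
  have key : ∀ a b : ℝ≥0∞, a * b + b * a ≤ a * a + b * b := by
    intro a b
    rcases le_total a b with h | h
    · obtain ⟨c, rfl⟩ := exists_add_of_le h
      have : a * a + (a + c) * (a + c) = a * (a + c) + (a + c) * a + c * c := by ring
      rw [this]
      exact le_self_add
    · obtain ⟨c, rfl⟩ := exists_add_of_le h
      have : (b + c) * (b + c) + b * b = (b + c) * b + b * (b + c) + c * c := by ring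
      rw [this]
      exact le_self_add
  unfold lm lmarginal at *
  rw [← lintegral_add_left, ← lintegral_add_left]
  · refine lintegral_mono fun y => ?_
    rw [← mul_add, ← mul_add]
    exact mul_le_mul_right (key _ _) _
  · exact (mw.mul (mA.mul mA)).comp measurable_updateFinset
  · exact (mw.mul (mA.mul mB)).comp measurable_updateFinset

end Pool.Agent.HM
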