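import Pool.Agent.Lib_helper69.HM.D1

open MeasureTheory Finset
open scoped ENNReal

namespace Pool.Agent.HM

/-- the reflection of the torus -/
def theta (N : ℕ) : Tor N ≃ Tor N where
  toFun x := (-x.1, x.2)
  invFun x := (-x.1, x.2)
  left_inv x := by simp
  right_inv x := by simp

/-- the left half of the torus -/
def lefT (N : ℕ) : Finset (Tor N) := univ.filter fun x => 0 < x.1.val ∧ x.1.val < N + 1

/-- the two lines fixed by the reflection -/
def plaT (N : ℕ) : Finset (Tor N) := univ.filter fun x => x.1.val = 0 ∨ x.1.val = N + 1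

private theorem R2_apply (N : ℕ) (x : Tor N) : theta N x = (-x.1, x.2) := rfl

private theorem R2_inv (N : ℕ) (x : Tor N) : theta N (theta N x) = x := by
  simp [R2_apply]

private theorem R2_lef {N : ℕ} {x : Tor N} : x ∈ lefT N ↔ 0 < x.1.val ∧ x.1.val < N + 1 := by
  simp [lefT]

private theorem R2_pla {N : ℕ} {x : Tor N} : x ∈ plaT N ↔ x.1.val = 0 ∨ x.1.val = N + 1 := by
  simp [plaT]

private theorem R2_lt {N : ℕ} (a : ZMod (2 * N + 2)) : a.val < 2 * N + 2 := ZMod.val_lt a

private theorem R2_neg0 {N : ℕ} {a : ZMod (2 * N + 2)} (h : a.val = 0) : (-a).val = 0 := by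
  have : a = 0 := (ZMod.val_eq_zero a).1 h
  simp [this]

private theorem R2_neg {N : ℕ} {a : ZMod (2 * N + 2)} (h : a.val ≠ 0) :
    (-a).val = 2 * N + 2 - a.val := by
  have : a ≠ 0 := fun h0 => h ((ZMod.val_eq_zero a).2 h0)
  rw [ZMod.neg_val, if_neg this]

private theorem R2_rig {N : ℕ} {x : Tor N} : theta N x ∈ lefT N ↔ N + 1 < x.1.val := by
  rw [R2_lef, R2_apply]
  have h1 := R2_lt x.1
  by_cases h : x.1.val = 0
  · simp only [R2_neg0 h]
    omega
  · simp only [R2_neg h]
    omega

private theorem R2_img {N : ℕ} {x : Tor N} : x ∈ (lefT N).image (theta N) ↔ N + 1 < x.1.val := by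
  rw [← R2_rig, mem_image]
  constructor
  · rintro ⟨y, hy, rfl⟩
    rwa [R2_inv]
  · intro h
    exact ⟨_, h, R2_inv N x⟩

/-- the first coordinate changes by `0` or `1` -/
private theorem R2_step {N : ℕ} (k i : Bool) (x : Tor N) :
    (x + stpT N k i).1.val = x.1.val ∨ (x + stpT N k i).1.val = x.1.val + 1 ∨
      ((x + stpT N k i).1.val = 0 ∧ x.1.val = 2 * N + 1) := by
  have h1 := R2_lt x.1
  have h2 : (x.1 + 1).val = x.1.val + 1 ∨ ((x.1 + 1).val = 0 ∧ x.1.val = 2 * N + 1) := by
    rw [ZMod.val_add, ZMod.val_one'' (by omega)]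
    by_cases h : x.1.val + 1 < 2 * N + 2
    · left
      exact Nat.mod_eq_of_lt h
    · right
      have h3 : x.1.val + 1 = 2 * N + 2 := by omega
      rw [h3]
      exact ⟨Nat.mod_self _, by omega⟩
  cases k <;> cases i <;> simp only [stpT, Prod.fst_add] <;> first | (right; simpa using h2) | skip
  left
  simp

/-- reflection of the edges -/
private def R2_r (N : ℕ) (k : Bool) (p : Tor N × Bool) : Tor N × Bool :=
  if k then (theta N (p.1 + stpT N k p.2), !p.2) else
    if p.2 then (theta N p.1, true) else (theta N (p.1 + stpT N k false), false)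

private theorem R2_ends {N : ℕ} (k : Bool) (p : Tor N × Bool) :
    ((R2_r N k p).1 = theta N p.1 ∧
      (R2_r N k p).1 + stpT N k (R2_r N k p).2 = theta N (p.1 + stpT N k p.2)) ∨
    ((R2_r N k p).1 = theta N (p.1 + stpT N k p.2) ∧
      (R2_r N k p).1 + stpT N k (R2_r N k p).2 = theta N p.1) := by
  obtain ⟨x, i⟩ := p
  cases k <;> cases i
  · right
    simp [R2_r, R2_apply, stpT]
  · left
    simp [R2_r, R2_apply, stpT]
  · right
    simp [R2_r, R2_apply, stpT]
  · right
    simp [R2_r, R2_apply, stpT]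

private theorem R2_invol {N : ℕ} (k : Bool) (p : Tor N × Bool) : R2_r N k (R2_r N k p) = p := by
  obtain ⟨x, i⟩ := p
  cases k <;> cases i <;> simp [R2_r, R2_apply, stpT]

theorem theta_fix {N : ℕ} {x : Tor N} (hx : x ∈ plaT N) : theta N x = x := by
  rw [R2_pla] at hx
  rw [R2_apply]
  ext1
  · apply ZMod.val_injective
    rcases hx with h | h
    · simp only [R2_neg0 h, h]
    · simp only
      rw [R2_neg (by omega), h]
      omega
  · rfl

theorem lefT_disj (N : ℕ) : Disjoint (lefT N) ((lefT N).image (theta N)) := by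
  rw [Finset.disjoint_left]
  intro x h1 h2
  rw [R2_lef] at h1
  rw [R2_img] at h2
  omega

theorem lefT_plaT (N : ℕ) : Disjoint (lefT N) (plaT N) := by
  rw [Finset.disjoint_left]
  intro x h1 h2
  rw [R2_lef] at h1
  rw [R2_pla] at h2
  omega

theorem rigT_plaT (N : ℕ) : Disjoint ((lefT N).image (theta N)) (plaT N) := by
  rw [Finset.disjoint_left]
  intro x h1 h2
  rw [R2_img] at h1
  rw [R2_pla] at h2
  omega

theorem torus_union (N : ℕ) : lefT N ∪ (lefT N).image (theta N) ∪ plaT N = univ := by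
  ext x
  simp only [mem_union, mem_univ, iff_true]
  rw [R2_lef, R2_img, R2_pla]
  omega

/-- factorisation of the weight on the torus, for both kinds of steps -/
theorem wt_factor {ρ : ℝ → ℝ} (hρ : EdgeWeight ρ) (m : ℝ) (N : ℕ) (k : Bool) :
    ∃ w₀ u : (Tor N → ℝ) → ℝ≥0∞, Measurable w₀ ∧ Measurable u ∧
      (∀ f g : Tor N → ℝ, (∀ x ∈ plaT N, f x = g x) → w₀ f = w₀ g) ∧
      (∀ f g : Tor N → ℝ, (∀ x ∈ lefT N ∪ plaT N, f x = g x) → u f = u g) ∧
      ∀ f, wt ρ m (stpT N k) univ f = w₀ f * (u f * u (f ∘ theta N)) := by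
  classical
  set g : Tor N × Bool → (Tor N → ℝ) → ℝ≥0∞ := fun p f =>
    ENNReal.ofReal (ρ (f (p.1 + stpT N k p.2) - f p.1)) with hg
  set h : Tor N → (Tor N → ℝ) → ℝ≥0∞ := fun x f =>
    ENNReal.ofReal (Real.exp (-(m ^ 2 * f x ^ 2 / 2))) with hh
  set EL : Finset (Tor N × Bool) :=
    univ.filter fun p => p.1 ∈ lefT N ∨ p.1 + stpT N k p.2 ∈ lefT N with hEL
  set ER : Finset (Tor N × Bool) :=
    univ.filter fun p => theta N p.1 ∈ lefT N ∨ theta N (p.1 + stpT N k p.2) ∈ lefT N with hER
  set EP : Finset (Tor N × Bool) := univ.filter fun p => p ∉ EL ∧ p ∉ ER with hEP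
  have mg : ∀ p, Measurable (g p) := by
    intro p
    have h1 : Measurable ρ := hρ.measurable
    have h2 : Measurable fun f : Tor N → ℝ => f (p.1 + stpT N k p.2) - f p.1 :=
      (measurable_pi_apply (p.1 + stpT N k p.2)).sub (measurable_pi_apply p.1)
    exact (h1.comp h2).ennreal_ofReal
  have mh : ∀ x, Measurable (h x) := by
    intro x
    have h1 : Measurable fun f : Tor N → ℝ => f x := measurable_pi_apply x
    fun_prop
  have mEL : ∀ p, p ∈ EL ↔ p.1 ∈ lefT N ∨ p.1 + stpT N k p.2 ∈ lefT N := by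
    intro p
    simp [hEL]
  have mER : ∀ p, p ∈ ER ↔ theta N p.1 ∈ lefT N ∨ theta N (p.1 + stpT N k p.2) ∈ lefT N := by
    intro p
    simp [hER]
  have hdisj : Disjoint EL ER := by
    rw [Finset.disjoint_left]
    intro p h1 h2
    rw [mEL, R2_lef, R2_lef] at h1
    rw [mER, R2_rig, R2_rig] at h2
    have h3 := R2_step k p.2 p.1
    have h4 := R2_lt p.1.1
    have h5 := R2_lt (p.1 + stpT N k p.2).1
    omega
  have hr : ∀ p, p ∈ EL → R2_r N k p ∈ ER := by
    intro p hp
    rw [mEL] at hp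
    rw [mER]
    rcases R2_ends k p with ⟨h1, h2⟩ | ⟨h1, h2⟩
    · rw [h2, h1, R2_inv, R2_inv]
      exact hp
    · rw [h2, h1, R2_inv, R2_inv]
      exact hp.symm
  have hr' : ∀ p, p ∈ ER → R2_r N k p ∈ EL := by
    intro p hp
    rw [mER] at hp
    rw [mEL]
    rcases R2_ends k p with ⟨h1, h2⟩ | ⟨h1, h2⟩
    · rw [h2, h1]
      exact hp
    · rw [h2, h1]
      exact hp.symm
  have hgr : ∀ p f, g (R2_r N k p) f = g p (f ∘ theta N) := by
    intro p f
    simp only [hg, Function.comp]
    rcases R2_ends k p with ⟨h1, h2⟩ | ⟨h1, h2⟩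
    · rw [h2, h1]
    · rw [h2, h1, ← hρ.even]
      congr 2
      ring
  refine ⟨fun f => (∏ p ∈ EP, g p f) * ∏ x ∈ plaT N, h x f,
    fun f => (∏ p ∈ EL, g p f) * ∏ x ∈ lefT N, h x f, ?_, ?_, ?_, ?_, ?_⟩
  · exact (Finset.measurable_prod _ fun p _ => mg p).mul (Finset.measurable_prod _ fun p _ => mh p)
  · exact (Finset.measurable_prod _ fun p _ => mg p).mul (Finset.measurable_prod _ fun p _ => mh p)
  · intro f f' hf
    have hpl : ∀ x : Tor N, x ∉ lefT N → theta N x ∉ lefT N → f x = f' x := by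
      intro x h1 h2
      apply hf
      rw [R2_lef] at h1
      rw [R2_rig] at h2
      rw [R2_pla]
      omega
    simp only
    congr 1
    · refine Finset.prod_congr rfl fun p hp => ?_
      simp only [hEP, mem_filter, mem_univ, true_and, mEL, mER, not_or] at hp
      simp only [hg]
      rw [hpl _ hp.1.1 hp.2.1, hpl _ hp.1.2 hp.2.2]
    · refine Finset.prod_congr rfl fun x hx => ?_
      simp only [hh]
      rw [hf x hx]
  · intro f f' hf
    have hpl : ∀ x : Tor N, x.1.val ≤ N + 1 → f x = f' x := by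
      intro x h1
      apply hf
      rw [mem_union, R2_lef, R2_pla]
      omega
    simp only
    congr 1
    · refine Finset.prod_congr rfl fun p hp => ?_
      simp only [hg]
      rw [mEL, R2_lef, R2_lef] at hp
      have h3 := R2_step k p.2 p.1
      have h4 := R2_lt p.1.1
      have h5 := R2_lt (p.1 + stpT N k p.2).1
      rw [hpl p.1 (by omega), hpl (p.1 + stpT N k p.2) (by omega)]
    · refine Finset.prod_congr rfl fun x hx => ?_
      simp only [hh]
      rw [hf x (mem_union_left _ hx)]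
  · intro f
    have e1 : ∏ p ∈ edges (stpT N k) (univ : Finset (Tor N)),
        ENNReal.ofReal (ρ (f (p.1 + stpT N k p.2) - f p.1)) =
        (∏ p ∈ EP, g p f) * ((∏ p ∈ EL, g p f) * ∏ p ∈ EL, g p (f ∘ theta N)) := by
      rw [edges_univ]
      have e2 : ∏ p ∈ EL, g p (f ∘ theta N) = ∏ p ∈ ER, g p f := by
        refine Finset.prod_nbij' (R2_r N k) (R2_r N k) hr hr' (fun p _ => R2_invol k p)
          (fun p _ => R2_invol k p) fun p _ => (hgr p f).symm
      rw [e2, ← Finset.prod_union hdisj, ← Finset.prod_union]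
      · refine Finset.prod_congr ?_ fun p _ => rfl
        ext p
        simp only [mem_univ, mem_union, hEP, mem_filter, true_and, true_iff]
        tauto
      · rw [Finset.disjoint_left]
        intro p hp
        simp only [hEP, mem_filter, mem_univ, true_and] at hp
        simp only [mem_union]
        tauto
    have e3 : ∏ x ∈ (univ : Finset (Tor N)), ENNReal.ofReal (Real.exp (-(m ^ 2 * f x ^ 2 / 2))) =
        (∏ x ∈ plaT N, h x f) * ((∏ x ∈ lefT N, h x f) * ∏ x ∈ lefT N, h x (f ∘ theta N)) := by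
      have e4 : ∏ x ∈ lefT N, h x (f ∘ theta N) = ∏ x ∈ (lefT N).image (theta N), h x f := by
        rw [Finset.prod_image fun a _ b _ hab => (theta N).injective hab]
        rfl
      rw [e4, ← Finset.prod_union (lefT_disj N), ← Finset.prod_union, union_comm, torus_union]
      exact (Finset.disjoint_union_right.2 ⟨(lefT_plaT N).symm, (rigT_plaT N).symm⟩)
    unfold wt
    rw [e1, e3]
    ring

end Pool.Agent.HM
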